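import Pool.Agent.U280.OE.Stm
import Pool.Agent.Helper717.LT.P_H_approx
import Pool.Agent.Helper717.LT.P_split_complex

/-! Package H of project OE (helper280). -/

set_option autoImplicit false

open MeasureTheory Set Filter Topology

namespace Pool.Agent.U39.OE

open Pool.Agent.U280.OD Pool.Agent.U280.OE

/-- the coordinates of a point of `E d` -/
noncomputable def eq0 (d : ℕ) : E d ≃L[ℝ] (Fin d → ℝ) := EuclideanSpace.equiv (Fin d) ℝ

lemma eq0_apply {d : ℕ} (x : E d) : eq0 d x = WithLp.ofLp x := rfl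

lemma mp0 (d : ℕ) : MeasurePreserving (fun x : E d => WithLp.ofLp x) volume volume :=
  PiLp.volume_preserving_ofLp (Fin d)

lemma int0 {d : ℕ} (h : (Fin d → ℝ) → ℝ) :
    ∫ x : E d, h (WithLp.ofLp x) = ∫ y, h y :=
  (mp0 d).integral_comp (eq0 d).toHomeomorph.measurableEmbedding h

lemma sq0 (z : ℂ) : ‖z‖ ^ 2 = z.re ^ 2 + z.im ^ 2 := by
  rw [Complex.sq_norm, Complex.normSq_apply]; ring

/-- the complex function with the given real and imaginary parts -/
noncomputable def cx {d : ℕ} (a b : (Fin d → ℝ) → ℝ) (x : E d) : ℂ :=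
  (a (WithLp.ofLp x) : ℂ) + (b (WithLp.ofLp x) : ℂ) * Complex.I

lemma cx_contDiff {d : ℕ} {a b : (Fin d → ℝ) → ℝ} (ha : ContDiff ℝ 1 a) (hb : ContDiff ℝ 1 b) :
    ContDiff ℝ 1 (cx a b) := by
  have h1 : ContDiff ℝ 1 fun x : E d => a (WithLp.ofLp x) := ha.comp (eq0 d).contDiff
  have h2 : ContDiff ℝ 1 fun x : E d => b (WithLp.ofLp x) := hb.comp (eq0 d).contDiff
  unfold cx
  exact (Complex.ofRealCLM.contDiff.comp h1).add
    ((Complex.ofRealCLM.contDiff.comp h2).mul contDiff_const)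

lemma comp0_supp {d : ℕ} {a : (Fin d → ℝ) → ℝ} (ha : HasCompactSupport a) :
    HasCompactSupport fun x : E d => (a (WithLp.ofLp x) : ℂ) := by
  have h1 : HasCompactSupport fun x : E d => a (WithLp.ofLp x) :=
    ha.comp_homeomorph (eq0 d).toHomeomorph
  exact h1.comp_left (g := fun t : ℝ => (t : ℂ)) Complex.ofReal_zero

lemma cx_supp {d : ℕ} {a b : (Fin d → ℝ) → ℝ} (ha : HasCompactSupport a)
    (hb : HasCompactSupport b) : HasCompactSupport (cx a b) := by
  unfold cx
  exact (comp0_supp ha).add ((comp0_supp hb).mul_right)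

lemma comp0_fderiv {d : ℕ} {a : (Fin d → ℝ) → ℝ} (ha : ContDiff ℝ 1 a) (x : E d) (j : Fin d) :
    HasFDerivAt (fun x : E d => (a (WithLp.ofLp x) : ℂ))
      (Complex.ofRealCLM.comp ((fderiv ℝ a (WithLp.ofLp x)).comp
        ((eq0 d : E d →L[ℝ] (Fin d → ℝ))))) x := by
  have h1 : HasFDerivAt a (fderiv ℝ a (WithLp.ofLp x)) (eq0 d x) :=
    (ha.differentiable one_ne_zero _).hasFDerivAt
  exact Complex.ofRealCLM.hasFDerivAt.comp x (h1.comp x (eq0 d).hasFDerivAt)

lemma cx_pd {d : ℕ} {a b : (Fin d → ℝ) → ℝ} (ha : ContDiff ℝ 1 a) (hb : ContDiff ℝ 1 b)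
    (x : E d) (j : Fin d) :
    fderiv ℝ (cx a b) x (EuclideanSpace.single j (1 : ℝ)) =
      (LTd.pd j a (WithLp.ofLp x) : ℂ) + (LTd.pd j b (WithLp.ofLp x) : ℂ) * Complex.I := by
  have h1 := (comp0_fderiv ha x j).add ((comp0_fderiv hb x j).mul_const Complex.I)
  have h2 : fderiv ℝ (cx a b) x = _ := h1.fderiv
  rw [h2]
  have h3 : eq0 d (EuclideanSpace.single j (1 : ℝ)) = Pi.single j 1 := by
    rw [eq0_apply]
    exact EuclideanSpace.ofLp_single j (1 : ℝ)
  simp [LTd.pd, h3, mul_comm]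

lemma cx_grad2 {d : ℕ} {a b : (Fin d → ℝ) → ℝ} (ha : ContDiff ℝ 1 a) (hb : ContDiff ℝ 1 b)
    (x : E d) :
    grad2 (cx a b) x =
      ∑ j, (LTd.pd j a (WithLp.ofLp x) ^ 2 + LTd.pd j b (WithLp.ofLp x) ^ 2) := by
  unfold grad2
  refine Finset.sum_congr rfl fun j _ => ?_
  rw [cx_pd ha hb, sq0]
  simp

lemma pd_int {d : ℕ} {a : (Fin d → ℝ) → ℝ} (ha : ContDiff ℝ 1 a) (hs : HasCompactSupport a)
    (j : Fin d) : Integrable fun y => LTd.pd j a y ^ 2 := by
  have hc : Continuous (LTd.pd j a) := by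
    have h1 : Continuous (fderiv ℝ a) := ha.continuous_fderiv one_ne_zero
    exact h1.clm_apply continuous_const
  have hs' : HasCompactSupport (LTd.pd j a) := hs.fderiv_apply (𝕜 := ℝ) (Pi.single j 1)
  exact (hc.memLp_of_hasCompactSupport hs' (p := 2)).integrable_sq

theorem t_H (hHL : T_HL) : T_H := by
  intro d N u g hu
  let f : Fin (N + N) → (Fin d → ℝ) → ℝ :=
    Fin.append (fun i x => (u i x).re) (fun i x => (u i x).im)
  let G : Fin (N + N) → Fin d → (Fin d → ℝ) → ℝ :=
    Fin.append (fun i k x => (g i k x).re) (fun i k x => (g i k x).im)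
  have hFl : ∀ i, f (Fin.castAdd N i) = fun x => (u i x).re := fun i => Fin.append_left _ _ i
  have hFr : ∀ i, f (Fin.natAdd N i) = fun x => (u i x).im := fun i => Fin.append_right _ _ i
  have hGl : ∀ i, G (Fin.castAdd N i) = fun k x => (g i k x).re := fun i => Fin.append_left _ _ i
  have hGr : ∀ i, G (Fin.natAdd N i) = fun k x => (g i k x).im := fun i => Fin.append_right _ _ i
  have hW : ∀ i, LTd.WGrad (f i) (G i) := by
    intro i
    refine Fin.addCases (fun i => ?_) (fun i => ?_) i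
    · rw [hFl, hGl]
      exact (LTd.split_complex (hu i)).1
    · rw [hFr, hGr]
      exact (LTd.split_complex (hu i)).2
  obtain ⟨F', c1, cs, hL, hae, hE⟩ := LTd.H_approx f G hW
  have hmem : ∀ k i, MemLp (F' k i) 2 := fun k i =>
    (c1 k i).continuous.memLp_of_hasCompactSupport (cs k i)
  have hL2 : ∀ i, Tendsto (fun k => ∫ x, (F' k i x - f i x) ^ 2) atTop (𝓝 0) := by
    intro i
    refine hHL d (fun k => F' k i) (f i) (fun k => hmem k i) (hW i).f2 (fun k => ?_) ?_
    · have h := hL k (Pi.single i 1)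
      simpa [Pi.single_apply] using h
    · filter_upwards [hae] with x hx using hx i
  have hfi : ∀ k i, Integrable fun x => (F' k i x - f i x) ^ 2 := fun k i =>
    ((hmem k i).sub (hW i).f2).integrable_sq
  refine ⟨fun k n => cx (F' k (Fin.castAdd N n)) (F' k (Fin.natAdd N n)),
    fun k n => cx_contDiff (c1 _ _) (c1 _ _), fun k n => cx_supp (cs _ _) (cs _ _), ?_, ?_, ?_⟩
  · have h := (mp0 d).quasiMeasurePreserving.ae hae
    filter_upwards [h] with x hx n
    have h1 := hx (Fin.castAdd N n)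
    have h2 := hx (Fin.natAdd N n)
    rw [hFl] at h1
    rw [hFr] at h2
    have h3 := ((Complex.continuous_ofReal.tendsto _).comp h1).add
      (((Complex.continuous_ofReal.tendsto _).comp h2).mul_const Complex.I)
    have h4 : ((u n (WithLp.ofLp x)).re : ℂ) + ((u n (WithLp.ofLp x)).im : ℂ) * Complex.I =
      u n (WithLp.ofLp x) := Complex.re_add_im _
    rw [h4] at h3
    exact h3
  · intro n
    have h1 := (hL2 (Fin.castAdd N n)).add (hL2 (Fin.natAdd N n))
    rw [add_zero] at h1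
    refine h1.congr fun k => ?_
    rw [← integral_add (hfi k _) (hfi k _), ← int0]
    refine integral_congr_ae (ae_of_all _ fun x => ?_)
    show _ = ‖cx _ _ x - u n (WithLp.ofLp x)‖ ^ 2
    rw [sq0, hFl, hFr]
    simp [cx]
  · intro k
    have hpi : ∀ i j, Integrable fun y => LTd.pd j (F' k i) y ^ 2 := fun i j =>
      pd_int (c1 k i) (cs k i) j
    have h1 : ∑ n, ∫ x, grad2 (cx (F' k (Fin.castAdd N n)) (F' k (Fin.natAdd N n))) x =
        ∫ x, ∑ j, ∑ i, LTd.pd j (F' k i) x ^ 2 := by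
      have h2 : ∀ n : Fin N, ∫ x, grad2 (cx (F' k (Fin.castAdd N n)) (F' k (Fin.natAdd N n))) x =
          ∫ y, ∑ j, (LTd.pd j (F' k (Fin.castAdd N n)) y ^ 2 +
            LTd.pd j (F' k (Fin.natAdd N n)) y ^ 2) := by
        intro n
        rw [← int0]
        refine integral_congr_ae (ae_of_all _ fun x => ?_)
        exact cx_grad2 (c1 _ _) (c1 _ _) x
      simp only [h2]
      have h5 : ∀ n ∈ (Finset.univ : Finset (Fin N)), Integrable fun y => ∑ j,
          (LTd.pd j (F' k (Fin.castAdd N n)) y ^ 2 + LTd.pd j (F' k (Fin.natAdd N n)) y ^ 2) :=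
        fun n _ => integrable_finsetSum _ fun j _ => (hpi _ j).add (hpi _ j)
      rw [← integral_finsetSum _ h5]
      refine integral_congr_ae (ae_of_all _ fun x => ?_)
      show ∑ n : Fin N, ∑ j, _ = ∑ j, ∑ i, _
      rw [Finset.sum_comm]
      refine Finset.sum_congr rfl fun j _ => ?_
      rw [Fin.sum_univ_add, Finset.sum_add_distrib]
    have hI : ∀ i j, Integrable (fun x => ‖g i j x‖ ^ 2) := by
      intro i j
      exact ((hu i).g2 j).integrable_norm_pow two_ne_zero
    have h3 : ∫ x, ∑ j, ∑ i, G i j x ^ 2 = ∑ i, ∑ j, ∫ x, ‖g i j x‖ ^ 2 := by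
      have h4 : ∀ x, ∑ j, ∑ i, G i j x ^ 2 = ∑ i, ∑ j, ‖g i j x‖ ^ 2 := by
        intro x
        rw [Finset.sum_comm, Fin.sum_univ_add, ← Finset.sum_add_distrib]
        refine Finset.sum_congr rfl fun i _ => ?_
        rw [← Finset.sum_add_distrib]
        simp only [hGl, hGr, sq0]
      simp only [h4]
      rw [integral_finsetSum _ (fun i _ => integrable_finsetSum _ (fun k _ => hI i k))]
      refine Finset.sum_congr rfl fun i _ => ?_
      rw [integral_finsetSum _ (fun k _ => hI i k)]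
    rw [h1, ← h3]
    exact hE k

end Pool.Agent.U39.OE
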